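import Pool.Agent.Helper67.R6.Fam

/-! # Row DEG of `Pool.Agent.Helper67.R6.Fam` -/

set_option autoImplicit false

namespace Pool.Helper67.R6

namespace DegAux

variable {F : Type} [Field F] {Z : Finset (F × F)}

theorem pd_congr {k : ℕ} {f g : F × F → F} (hf : PD Z k f) (h : ∀ z, g z = f z) : PD Z k g := by
  obtain ⟨P, hP, hz⟩ := hf
  exact ⟨P, hP, fun z hzZ => by rw [h z]; exact hz z hzZ⟩

theorem pd_mono {k l : ℕ} {f : F × F → F} (hf : PD Z k f) (h : k ≤ l) : PD Z l f := by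
  obtain ⟨P, hP, hz⟩ := hf
  exact ⟨P, hP.trans h, hz⟩

theorem pd_add {k : ℕ} {f g : F × F → F} (hf : PD Z k f) (hg : PD Z k g) :
    PD Z k (fun z => f z + g z) := by
  obtain ⟨P, hP, hz⟩ := hf
  obtain ⟨Q, hQ, hw⟩ := hg
  refine ⟨P + Q, (MvPolynomial.totalDegree_add P Q).trans (max_le hP hQ), fun z hzZ => ?_⟩
  rw [map_add, ← hz z hzZ, ← hw z hzZ]

theorem pd_mul {k l : ℕ} {f g : F × F → F} (hf : PD Z k f) (hg : PD Z l g) :
    PD Z (k + l) (fun z => f z * g z) := by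
  obtain ⟨P, hP, hz⟩ := hf
  obtain ⟨Q, hQ, hw⟩ := hg
  refine ⟨P * Q, (MvPolynomial.totalDegree_mul P Q).trans (Nat.add_le_add hP hQ), fun z hzZ => ?_⟩
  rw [map_mul, ← hz z hzZ, ← hw z hzZ]

theorem pd_const (c : F) : PD Z 0 (fun _ => c) :=
  ⟨MvPolynomial.C c, by rw [MvPolynomial.totalDegree_C], fun z _ => by simp⟩

theorem pd_fst : PD Z 1 (fun z => z.1) :=
  ⟨MvPolynomial.X 0, by rw [MvPolynomial.totalDegree_X], fun z _ => by simp⟩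

theorem pd_snd : PD Z 1 (fun z => z.2) :=
  ⟨MvPolynomial.X 1, by rw [MvPolynomial.totalDegree_X], fun z _ => by simp⟩

theorem pd_lin (a b : F) : PD Z 1 (fun z => a * z.1 + b * z.2) :=
  pd_mono (pd_add (pd_mul (pd_const a) pd_fst) (pd_mul (pd_const b) pd_snd)) (by norm_num)

theorem pd_bf (f : Fin 3 → F) : PD Z 2 (fun z => bf f z) := by
  have h1 : PD Z 2 (fun z => f 0 * (z.1 * z.1)) :=
    pd_mono (pd_mul (pd_const (f 0)) (pd_mul pd_fst pd_fst)) (by norm_num)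
  have h2 : PD Z 2 (fun z => f 1 * (z.1 * z.2)) :=
    pd_mono (pd_mul (pd_const (f 1)) (pd_mul pd_fst pd_snd)) (by norm_num)
  have h3 : PD Z 2 (fun z => f 2 * (z.2 * z.2)) :=
    pd_mono (pd_mul (pd_const (f 2)) (pd_mul pd_snd pd_snd)) (by norm_num)
  refine pd_congr (pd_add (pd_add h1 h2) h3) fun z => ?_
  simp only [bf]
  ring

/-- monomials of degree 6 -/
theorem six (hS : ST_SYL) (f g h : Fin 3 → F) (hg : rs f g ≠ 0) (hh : rs f h ≠ 0) (i j : ℕ)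
    (hij : i + j = 6) : ∃ A B : F × F → F, PD Z 4 A ∧ PD Z 2 B ∧
      ∀ z : F × F, z.1 ^ i * z.2 ^ j = A z * bf f z + B z * (bf g z * bf h z) := by
  obtain ⟨i1, j1, i2, j2, h1, h2, rfl, rfl⟩ : ∃ i1 j1 i2 j2 : ℕ, i1 + j1 = 3 ∧ i2 + j2 = 3 ∧
      i = i1 + i2 ∧ j = j1 + j2 := by
    refine ⟨min i 3, 3 - min i 3, i - min i 3, j - (3 - min i 3), ?_, ?_, ?_, ?_⟩ <;> omega
  obtain ⟨a0, a1, b0, b1, e1⟩ := hS F f g hg i1 j1 h1
  obtain ⟨c0, c1, d0, d1, e2⟩ := hS F f h hh i2 j2 h2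
  have la := pd_lin (Z := Z) a0 a1
  have lb := pd_lin (Z := Z) b0 b1
  have lc := pd_lin (Z := Z) c0 c1
  have ld := pd_lin (Z := Z) d0 d1
  refine ⟨_, _, pd_add (pd_add (pd_mul (pd_mul la lc) (pd_bf f)) (pd_mul (pd_mul la ld) (pd_bf h)))
    (pd_mul (pd_mul lb lc) (pd_bf g)), pd_mul lb ld, fun z => ?_⟩
  have e : z.1 ^ (i1 + i2) * z.2 ^ (j1 + j2) = (z.1 ^ i1 * z.2 ^ j1) * (z.1 ^ i2 * z.2 ^ j2) := by
    rw [pow_add, pow_add]; ring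
  rw [e, e1 z, e2 z]
  ring

end DegAux

open DegAux in
theorem st_DEG (hS : ST_SYL) : ST_DEG := by
  intro F _ Z f g h hg hh h3 h5 h7 i j hij
  obtain ⟨i1, j1, i2, j2, i3, j3, h1, h2, h3', rfl, rfl⟩ : ∃ i1 j1 i2 j2 i3 j3 : ℕ,
      i1 + j1 = 6 ∧ i2 + j2 = 6 ∧ i3 + j3 = 6 ∧ i = i1 + i2 + i3 ∧ j = j1 + j2 + j3 := by
    refine ⟨min i 6, 6 - min i 6, min (i - min i 6) 6, 6 - min (i - min i 6) 6,
      i - min i 6 - min (i - min i 6) 6, j - (6 - min i 6) - (6 - min (i - min i 6) 6),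
      ?_, ?_, ?_, ?_, ?_⟩ <;> omega
  obtain ⟨A1, B1, hA1, hB1, e1⟩ := six (Z := Z) hS f g h hg hh i1 j1 h1
  obtain ⟨A2, B2, hA2, hB2, e2⟩ := six (Z := Z) hS f g h hg hh i2 j2 h2
  obtain ⟨A3, B3, hA3, hB3, e3⟩ := six (Z := Z) hS f g h hg hh i3 j3 h3'
  have hf := pd_bf (Z := Z) f
  have hgh : PD Z 4 (fun z => bf g z * bf h z) := pd_mul (pd_bf g) (pd_bf h)
  -- the four terms
  have t1 := pd_mul (pd_mul (pd_mul hA1 hA2) hA3) h3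
  have c2 := pd_add (pd_add (pd_mul (pd_mul hA1 hA2) hB3) (pd_mul (pd_mul hA1 hA3) hB2))
    (pd_mul (pd_mul hA2 hA3) hB1)
  have t2 := pd_mul c2 (pd_mul hf h5)
  have c3 := pd_add (pd_add (pd_mul (pd_mul hA1 hB2) hB3) (pd_mul (pd_mul hA2 hB1) hB3))
    (pd_mul (pd_mul hA3 hB1) hB2)
  have t3 := pd_mul c3 (pd_mul hgh h5)
  have t4 := pd_mul (pd_mul (pd_mul hB1 hB2) hB3) (pd_mul hgh h7)
  have t1' := pd_mono t1 (show _ ≤ 17 by norm_num)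
  have t2' := pd_mono t2 (show _ ≤ 17 by norm_num)
  have t3' := pd_mono t3 (show _ ≤ 17 by norm_num)
  have t4' := pd_mono t4 (show _ ≤ 17 by norm_num)
  refine pd_congr (pd_add (pd_add t1' t2') (pd_add t3' t4')) fun z => ?_
  have e : z.1 ^ (i1 + i2 + i3) * z.2 ^ (j1 + j2 + j3) =
      (z.1 ^ i1 * z.2 ^ j1) * (z.1 ^ i2 * z.2 ^ j2) * (z.1 ^ i3 * z.2 ^ j3) := by
    rw [pow_add, pow_add, pow_add, pow_add]; ring
  show z.1 ^ (i1 + i2 + i3) * z.2 ^ (j1 + j2 + j3) = _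
  rw [e, e1 z, e2 z, e3 z]
  ring

end Pool.Helper67.R6
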