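import Pool.Agent.Helper67.R6.Fam

/-! # Row SYL of `Pool.Agent.Helper67.R6.Fam` -/

set_option autoImplicit false

namespace Pool.Helper67.R6

theorem st_SYL : ST_SYL := by
  intro F _ f g h i j hij
  have h' : (f 0 * g 2 - f 2 * g 0) ^ 2 - (f 0 * g 1 - f 1 * g 0) * (f 1 * g 2 - f 2 * g 1) ≠ 0 := h
  have key : ∀ (c : F × F → F) (a b p q : F),
      (∀ z : F × F, rs f g * c z =
        (a * z.1 + b * z.2) * bf f z + (p * z.1 + q * z.2) * bf g z) →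
      ∃ l0 l1 m0 m1 : F, ∀ z : F × F,
        c z = (l0 * z.1 + l1 * z.2) * bf f z + (m0 * z.1 + m1 * z.2) * bf g z := by
    intro c a b p q hc
    refine ⟨a / rs f g, b / rs f g, p / rs f g, q / rs f g, fun z => ?_⟩
    have e := hc z
    field_simp
    linear_combination e
  have hj : j = 3 - i := by omega
  subst hj
  have hi : i = 0 ∨ i = 1 ∨ i = 2 ∨ i = 3 := by omega
  rcases hi with rfl | rfl | rfl | rfl
  · refine key (fun z => z.1 ^ 0 * z.2 ^ (3 - 0)) (f 0 * g 0 * g 1 - f 1 * g 0 * g 0)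
      (-(f 0 * g 0 * g 2) + f 0 * g 1 * g 1 - f 1 * g 0 * g 1 + f 2 * g 0 * g 0)
      (-(f 0 * f 0 * g 1) + f 0 * f 1 * g 0)
      (f 0 * f 0 * g 2 - f 0 * f 1 * g 1 - f 0 * f 2 * g 0 + f 1 * f 1 * g 0) fun z => ?_
    simp only [rs, bf, pow_zero, one_mul, Nat.sub_zero]
    ring
  · refine key (fun z => z.1 ^ 1 * z.2 ^ (3 - 1)) (-(f 0 * g 0 * g 2) + f 2 * g 0 * g 0)
      (-(f 0 * g 1 * g 2) + f 1 * g 0 * g 2)
      (f 0 * f 0 * g 2 - f 0 * f 2 * g 0) (f 0 * f 2 * g 1 - f 1 * f 2 * g 0) fun z => ?_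
    simp only [rs, bf, pow_one, Nat.reduceSub]
    ring
  · refine key (fun z => z.1 ^ 2 * z.2 ^ (3 - 2)) (f 1 * g 0 * g 2 - f 2 * g 0 * g 1)
      (f 0 * g 2 * g 2 - f 2 * g 0 * g 2)
      (-(f 0 * f 1 * g 2) + f 0 * f 2 * g 1) (-(f 0 * f 2 * g 2) + f 2 * f 2 * g 0) fun z => ?_
    simp only [rs, bf, Nat.reduceSub]
    ring
  · refine key (fun z => z.1 ^ 3 * z.2 ^ (3 - 3))
      (f 0 * g 2 * g 2 - f 1 * g 1 * g 2 - f 2 * g 0 * g 2 + f 2 * g 1 * g 1)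
      (-(f 1 * g 2 * g 2) + f 2 * g 1 * g 2)
      (-(f 0 * f 2 * g 2) + f 1 * f 1 * g 2 - f 1 * f 2 * g 1 + f 2 * f 2 * g 0)
      (f 1 * f 2 * g 2 - f 2 * f 2 * g 1) fun z => ?_
    simp only [rs, bf, Nat.reduceSub]
    ring

end Pool.Helper67.R6
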